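import Pool.Agent.Helper9.RC.Defs

/-! Project BC. The numbers of points of the singular cubics `y ^ 2 = x ^ 3 + a x + b`. -/

set_option autoImplicit false

namespace Pool.Agent.Helper48.BC

open Polynomial Pool.Agent.Helper9.RC

variable {O : Type} [Field O]

/-- the elements of the field of `Q` elements -/
theorem card_fixed [IsAlgClosed O] {p : ℕ} [Fact p.Prime] [CharP O p] {k : ℕ} (hk : 0 < k) :
    Nat.card {x : O // x ^ p ^ k = x} = p ^ k := by
  classical
  have hp := (Fact.out : p.Prime).one_lt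
  have hQ : 1 < p ^ k := Nat.one_lt_pow hk.ne' hp
  have hne : (X ^ (p ^ k) - X : O[X]) ≠ 0 := FiniteField.X_pow_card_sub_X_ne_zero O hQ
  have hsep : (X ^ (p ^ k) - X : O[X]).Separable :=
    galois_poly_separable p (p ^ k) (dvd_pow_self p hk.ne')
  have h1 := card_rootSet_eq_natDegree (K := O) hsep (IsAlgClosed.splits _)
  rw [FiniteField.X_pow_card_sub_X_natDegree_eq O hQ] at h1
  refine Eq.trans ?_ h1
  rw [← Nat.card_eq_fintype_card]
  refine Nat.card_congr (Equiv.subtypeEquivRight fun x => ?_)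
  rw [mem_rootSet_of_ne hne, map_sub, map_pow, aeval_X, sub_eq_zero]

section Sing

variable {a b : O} {Q : ℕ}

/-- the cusp -/
theorem points_cusp (hQ : 0 < Q) : curveCount Q (0 : O) 0 = Nat.card {x : O // x ^ Q = x} := by
  unfold curveCount
  refine (Nat.card_congr (Equiv.ofBijective
    (fun t : {x : O // x ^ Q = x} => (⟨(t.1 ^ 2, t.1 ^ 3), ?_, ?_, ?_⟩ :
      {z : O × O // z.1 ^ Q = z.1 ∧ z.2 ^ Q = z.2 ∧ z.2 ^ 2 = z.1 ^ 3 + 0 * z.1 + 0}))
    ⟨?_, ?_⟩)).symm
  · show (t.1 ^ 2) ^ Q = t.1 ^ 2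
    rw [← pow_mul, mul_comm, pow_mul, t.2]
  · show (t.1 ^ 3) ^ Q = t.1 ^ 3
    rw [← pow_mul, mul_comm, pow_mul, t.2]
  · show (t.1 ^ 3) ^ 2 = (t.1 ^ 2) ^ 3 + 0 * t.1 ^ 2 + 0
    ring
  · rintro ⟨t, ht⟩ ⟨s, hs⟩ h
    have h1 : t ^ 2 = s ^ 2 := congrArg (fun z => z.1.1) h
    have h2 : t ^ 3 = s ^ 3 := congrArg (fun z => z.1.2) h
    apply Subtype.ext
    show t = s
    by_cases h0 : t = 0
    · subst h0
      have h3 : s ^ 2 = 0 := by rw [← h1]; ring
      exact (pow_eq_zero_iff (two_ne_zero)).1 h3 |>.symm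
    · have h3 : s ≠ 0 := by
        rintro rfl
        exact h0 ((pow_eq_zero_iff two_ne_zero).1 (by rw [h1]; ring))
      have h4 : t ^ 2 * t = t ^ 2 * s := by
        calc t ^ 2 * t = t ^ 3 := by ring
          _ = s ^ 3 := h2
          _ = s ^ 2 * s := by ring
          _ = t ^ 2 * s := by rw [h1]
      exact mul_left_cancel₀ (pow_ne_zero 2 h0) h4
  · rintro ⟨⟨x, y⟩, hx, hy, h⟩
    have h' : y ^ 2 = x ^ 3 := by
      have : y ^ 2 = x ^ 3 + 0 * x + 0 := h
      rw [this]; ring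
    by_cases h0 : x = 0
    · refine ⟨⟨0, zero_pow hQ.ne'⟩, ?_⟩
      subst h0
      have h1 : y = 0 := (pow_eq_zero_iff two_ne_zero).1 (by rw [h']; ring)
      subst h1
      apply Subtype.ext
      exact Prod.ext (by simp) (by simp)
    · refine ⟨⟨y / x, ?_⟩, ?_⟩
      · have e1 : x ^ Q = x := hx
        have e2 : y ^ Q = y := hy
        rw [div_pow, e1, e2]
      · apply Subtype.ext
        refine Prod.ext ?_ ?_
        · show (y / x) ^ 2 = x
          rw [div_pow, h']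
          field_simp
        · show (y / x) ^ 3 = y
          rw [div_pow, pow_succ y 2, h']
          field_simp

/-- the node -/
theorem points_node (hQ : 0 < Q) {c t₀ : O} (hc : c ^ Q = c) (h0 : c ≠ 0) (h3 : (3 : O) ≠ 0)
    (ht₀ : t₀ ^ 2 = 3 * c) (hneg : (-t₀) ^ Q = -t₀) (hne : -t₀ ≠ t₀) (ha : a = -3 * c ^ 2)
    (hb : b = 2 * c ^ 3) (h2Q : (2 : O) ^ Q = 2) (h3Q : (3 : O) ^ Q = 3)
    (hadd : ∀ x y : O, (x - y) ^ Q = x ^ Q - y ^ Q) :
    curveCount Q a b = Nat.card {x : O // x ^ Q = x ∧ x ≠ t₀} := by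
  unfold curveCount
  have hc3 : (3 : O) * c ≠ 0 := mul_ne_zero h3 h0
  refine (Nat.card_congr (Equiv.ofBijective
    (fun t : {x : O // x ^ Q = x ∧ x ≠ t₀} =>
      (⟨(t.1 ^ 2 - 2 * c, t.1 * (t.1 ^ 2 - 3 * c)), ?_, ?_, ?_⟩ :
      {z : O × O // z.1 ^ Q = z.1 ∧ z.2 ^ Q = z.2 ∧ z.2 ^ 2 = z.1 ^ 3 + a * z.1 + b}))
    ⟨?_, ?_⟩)).symm
  · show (t.1 ^ 2 - 2 * c) ^ Q = t.1 ^ 2 - 2 * c
    rw [hadd, mul_pow, h2Q, hc, ← pow_mul, mul_comm 2 Q, pow_mul, t.2.1]
  · show (t.1 * (t.1 ^ 2 - 3 * c)) ^ Q = t.1 * (t.1 ^ 2 - 3 * c)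
    rw [mul_pow, hadd, mul_pow, h3Q, hc, ← pow_mul, mul_comm 2 Q, pow_mul, t.2.1]
  · show (t.1 * (t.1 ^ 2 - 3 * c)) ^ 2 = (t.1 ^ 2 - 2 * c) ^ 3 + a * (t.1 ^ 2 - 2 * c) + b
    rw [ha, hb]
    ring
  · rintro ⟨t, ht, htt⟩ ⟨s, hs, hst⟩ h
    have h1 : t ^ 2 - 2 * c = s ^ 2 - 2 * c := congrArg (fun z => z.1.1) h
    have h2 : t * (t ^ 2 - 3 * c) = s * (s ^ 2 - 3 * c) := congrArg (fun z => z.1.2) h
    have h1' : t ^ 2 = s ^ 2 := sub_left_injective h1
    apply Subtype.ext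
    show t = s
    by_cases h4 : t ^ 2 = 3 * c
    · have h5 : ∀ x : O, x ^ 2 = 3 * c → x ≠ t₀ → x = -t₀ := by
        intro x hx hxt
        have h6 : (x - t₀) * (x + t₀) = 0 := by
          have : (x - t₀) * (x + t₀) = x ^ 2 - t₀ ^ 2 := by ring
          rw [this, hx, ht₀, sub_self]
        rcases mul_eq_zero.1 h6 with h7 | h7
        · exact absurd (sub_eq_zero.1 h7) hxt
        · exact eq_neg_of_add_eq_zero_left h7
      rw [h5 t h4 htt, h5 s (h1'.symm.trans h4) hst]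
    · rw [← h1'] at h2
      exact mul_right_cancel₀ (sub_ne_zero.2 h4) h2
  · rintro ⟨⟨x, y⟩, hx, hy, h⟩
    have e1 : x ^ Q = x := hx
    have e2 : y ^ Q = y := hy
    have h' : y ^ 2 = (x - c) ^ 2 * (x + 2 * c) := by
      have : y ^ 2 = x ^ 3 + a * x + b := h
      rw [this, ha, hb]
      ring
    by_cases hxc : x = c
    · subst hxc
      have h1 : y = 0 := (pow_eq_zero_iff two_ne_zero).1 (by rw [h']; ring)
      subst h1
      refine ⟨⟨-t₀, hneg, hne⟩, ?_⟩
      apply Subtype.ext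
      refine Prod.ext ?_ ?_
      · show (-t₀) ^ 2 - 2 * x = x
        rw [neg_sq, ht₀]
        ring
      · show -t₀ * ((-t₀) ^ 2 - 3 * x) = 0
        rw [neg_sq, ht₀, sub_self, mul_zero]
    · have hxc' : x - c ≠ 0 := sub_ne_zero.2 hxc
      have h5 : (y / (x - c)) ^ 2 = x + 2 * c := by
        rw [div_pow, h']
        field_simp
      refine ⟨⟨y / (x - c), ?_, ?_⟩, ?_⟩
      · rw [div_pow, hadd, e1, e2, hc]
      · intro h6
        rw [h6, ht₀] at h5
        apply hxc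
        linear_combination -h5
      · apply Subtype.ext
        refine Prod.ext ?_ ?_
        · show (y / (x - c)) ^ 2 - 2 * c = x
          rw [h5]
          ring
        · show y / (x - c) * ((y / (x - c)) ^ 2 - 3 * c) = y
          rw [h5]
          field_simp
          ring

/-- **The points of a singular cubic.** -/
theorem points_sing [IsAlgClosed O] {p : ℕ} [Fact p.Prime] [CharP O p] (hp : 3 < p) {e : ℕ}
    (he : 0 < e) (ha : a ^ p ^ e = a) (hb : b ^ p ^ e = b) (h : 4 * a ^ 3 + 27 * b ^ 2 = 0) :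
    ∃ c : ℕ, c ≤ 1 ∧ ∀ i : ℕ, 0 < i →
      curveCount ((p ^ e) ^ (2 * i)) a b + c = (p ^ e) ^ (2 * i) := by
  classical
  refine ⟨if a = 0 then 0 else 1, by split_ifs <;> simp, fun i hi => ?_⟩
  have hpp := (Fact.out : p.Prime)
  have hcast : ∀ n : ℕ, 0 < n → n ≤ 3 → (n : O) ≠ 0 := by
    intro n hn hn3 h0
    have := Nat.le_of_dvd hn ((CharP.cast_eq_zero_iff O p n).1 h0)
    omega
  have h2 : (2 : O) ≠ 0 := by exact_mod_cast hcast 2 (by norm_num) (by norm_num)
  have h3 : (3 : O) ≠ 0 := by exact_mod_cast hcast 3 (by norm_num) (by norm_num)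
  have hpos : 0 < e * (2 * i) := by positivity
  have hfrob : ∀ (k : ℕ) (x y : O), (x - y) ^ p ^ k = x ^ p ^ k - y ^ p ^ k := fun k x y =>
    sub_pow_char_pow x y k
  have hQ : (p ^ e) ^ (2 * i) = p ^ (e * (2 * i)) := (pow_mul p e (2 * i)).symm
  have hfix : ∀ x : O, x ^ p ^ e = x → ∀ k : ℕ, x ^ p ^ (e * k) = x := by
    intro x hx k
    induction k with
    | zero => simp
    | succ k ih => rw [mul_add, mul_one, pow_add, pow_mul, ih, hx]
  have hnat : ∀ (n k : ℕ), ((n : O)) ^ p ^ k = n := fun n k => by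
    induction k with
    | zero => simp
    | succ k ih => rw [pow_succ, pow_mul, ih, ← frobenius_def, map_natCast]
  rw [hQ]
  by_cases ha0 : a = 0
  · rw [if_pos ha0, add_zero]
    subst ha0
    have hb0 : b = 0 := by
      have h4 : (27 : O) * b ^ 2 = 0 := by
        rw [← h]
        ring
      have h27 : (27 : O) ≠ 0 := by
        have : (27 : O) = 3 ^ 3 := by norm_num
        rw [this]
        exact pow_ne_zero 3 h3
      exact (pow_eq_zero_iff two_ne_zero).1 ((mul_eq_zero.1 h4).resolve_left h27)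
    subst hb0
    rw [points_cusp (by positivity), card_fixed hpos]
  · rw [if_neg ha0]
    obtain ⟨c, hc⟩ : ∃ c, c = -(3 * b) / (2 * a) := ⟨_, rfl⟩
    have h2a : 2 * a ≠ 0 := mul_ne_zero h2 ha0
    have hc2 : 2 * a * c = -(3 * b) := by
      rw [hc]
      field_simp
    have ha' : a = -3 * c ^ 2 := by
      have h5 : a ^ 2 * (a + 3 * c ^ 2) = 0 := by
        have h6 : 4 * (a ^ 2 * (a + 3 * c ^ 2)) = 0 := by
          linear_combination h + 3 * (2 * a * c - 3 * b) * hc2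
        have h4 : (4 : O) ≠ 0 := by
          have : (4 : O) = 2 ^ 2 := by norm_num
          rw [this]
          exact pow_ne_zero 2 h2
        exact (mul_eq_zero.1 h6).resolve_left h4
      have h7 := (mul_eq_zero.1 h5).resolve_left (pow_ne_zero 2 ha0)
      linear_combination h7
    have hb' : b = 2 * c ^ 3 := by
      have h5 : 3 * (b - 2 * c ^ 3) = 0 := by
        linear_combination hc2 - 2 * c * ha'
      have h7 := (mul_eq_zero.1 h5).resolve_left h3
      linear_combination h7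
    have hc0 : c ≠ 0 := by
      rintro rfl
      exact ha0 (by rw [ha']; ring)
    have hcq : c ^ p ^ e = c := by
      rw [hc, div_pow, neg_pow, mul_pow, mul_pow, ha, hb]
      have e2 : (2 : O) ^ p ^ e = 2 := by exact_mod_cast hnat 2 e
      have e3 : (3 : O) ^ p ^ e = 3 := by exact_mod_cast hnat 3 e
      have e4 : (-1 : O) ^ p ^ e = -1 := by
        have hodd : Odd (p ^ e) := (hpp.odd_of_ne_two (by omega)).pow
        exact hodd.neg_one_pow
      rw [e2, e3, e4]
      ring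
    obtain ⟨t₀, ht₀⟩ := IsAlgClosed.exists_pow_nat_eq (3 * c) (n := 2) two_pos
    have ht0 : t₀ ≠ 0 := by
      rintro rfl
      rw [zero_pow two_ne_zero] at ht₀
      exact mul_ne_zero h3 hc0 ht₀.symm
    have hodd : Odd (p ^ e) := (hpp.odd_of_ne_two (by omega)).pow
    have hs : (3 * c) ^ p ^ e = 3 * c := by
      have e3 : (3 : O) ^ p ^ e = 3 := by exact_mod_cast hnat 3 e
      rw [mul_pow, e3, hcq]
    have hsgn : t₀ ^ p ^ e = t₀ ∨ t₀ ^ p ^ e = -t₀ := by
      have h5 : (t₀ ^ p ^ e) ^ 2 = t₀ ^ 2 := by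
        rw [← pow_mul, mul_comm, pow_mul, ht₀, hs]
      exact sq_eq_sq_iff_eq_or_eq_neg.1 h5
    have ht2 : t₀ ^ p ^ (e * 2) = t₀ := by
      rw [mul_two, pow_add, pow_mul]
      rcases hsgn with h5 | h5
      · rw [h5, h5]
      · rw [h5, hodd.neg_pow, h5, neg_neg]
    have htQ : t₀ ^ p ^ (e * (2 * i)) = t₀ := by
      have h5 : ∀ k : ℕ, t₀ ^ p ^ (e * (2 * k)) = t₀ := by
        intro k
        induction k with
        | zero => simp
        | succ k ih =>
          have : e * (2 * (k + 1)) = e * (2 * k) + e * 2 := by ring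
          rw [this, pow_add, pow_mul, ih, ht2]
      exact h5 i
    have hoddQ : Odd (p ^ (e * (2 * i))) := (hpp.odd_of_ne_two (by omega)).pow
    have hne : -t₀ ≠ t₀ := by
      intro h5
      have h6 : 2 * t₀ = 0 := by linear_combination -h5
      exact (mul_ne_zero h2 ht0) h6
    rw [points_node (c := c) (t₀ := t₀) (by positivity) (hfix c hcq _) hc0 h3 ht₀
      (by rw [hoddQ.neg_pow, htQ]) hne ha' hb' (by exact_mod_cast hnat 2 _)
      (by exact_mod_cast hnat 3 _) (fun x y => hfrob _ x y)]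
    have hfin : Finite {x : O // x ^ p ^ (e * (2 * i)) = x} := by
      refine Nat.finite_of_card_ne_zero ?_
      rw [card_fixed hpos]
      positivity
    have := Fintype.ofFinite {x : O // x ^ p ^ (e * (2 * i)) = x}
    have h5 : Nat.card {x : O // x ^ p ^ (e * (2 * i)) = x ∧ x ≠ t₀} + 1 =
        Nat.card {x : O // x ^ p ^ (e * (2 * i)) = x} := by
      let z : {x : O // x ^ p ^ (e * (2 * i)) = x} := ⟨t₀, htQ⟩
      have e1 : Nat.card {x : O // x ^ p ^ (e * (2 * i)) = x ∧ x ≠ t₀} =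
          Nat.card {y : {x : O // x ^ p ^ (e * (2 * i)) = x} // y ≠ z} := by
        refine Nat.card_congr ⟨fun x => ⟨⟨x.1, x.2.1⟩, fun h => x.2.2 (congrArg Subtype.val h)⟩,
          fun y => ⟨y.1.1, y.1.2, fun h => y.2 (Subtype.ext h)⟩, fun x => rfl, fun y => rfl⟩
      rw [e1, Nat.card_eq_fintype_card, Nat.card_eq_fintype_card, Fintype.card_subtype_compl,
        Fintype.card_subtype_eq]
      have : 0 < Fintype.card {x : O // x ^ p ^ (e * (2 * i)) = x} :=
        Fintype.card_pos_iff.2 ⟨z⟩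
      omega
    rw [h5, card_fixed hpos]

end Sing

end Pool.Agent.Helper48.BC
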