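import Pool.Agent.Helper48.BC.Count

/-! Project RC (MP_1fe969_ag): singular fibres, and the number of points modulo `r`. -/

set_option autoImplicit false

namespace Pool.Agent.Helper48.BC

open Polynomial Module Pool.Agent.Helper9.RC

/-- (C1) a singular fibre -/
theorem fibre_sing {p : ℕ} [Fact p.Prime] (hp : 3 < p) {O : Type} [Field O] [CharP O p]
    [IsAlgClosed O] {e j : ℕ} (he : 0 < e) (hj : 0 < j) {a b : O} (ha : a ^ p ^ e = a)
    (hb : b ^ p ^ e = b) (h : 4 * a ^ 3 + 27 * b ^ 2 = 0) :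
    ∃ c : ℤ, (c = 0 ∨ c = 1) ∧ ∀ N : ℕ, 0 < N →
      (curveCount ((p ^ (e * (2 * j))) ^ N) a b : ℤ) = ((p : ℤ) ^ (e * (2 * j))) ^ N - c := by
  obtain ⟨c, hc, hc'⟩ := points_sing hp he ha hb h
  refine ⟨c, by omega, fun N hN => ?_⟩
  have h2 := hc' (j * N) (Nat.mul_pos hj hN)
  have h3 : (p ^ (e * (2 * j))) ^ N = (p ^ e) ^ (2 * (j * N)) := by
    rw [← pow_mul, ← pow_mul]
    congr 1
    ring
  have h4 : (curveCount ((p ^ (e * (2 * j))) ^ N) a b : ℤ) + c = ((p : ℤ) ^ (e * (2 * j))) ^ N := by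
    rw [h3]
    have h5 : ((curveCount ((p ^ e) ^ (2 * (j * N))) a b + c : ℕ) : ℤ) =
        (((p ^ e) ^ (2 * (j * N)) : ℕ) : ℤ) := by rw [h2]
    rw [← h3] at h5
    rw [← h3]
    push_cast at h5 ⊢
    exact h5
  linarith

section block

variable {k : Type} [CommRing k] {m n : Type} [Fintype m] [Fintype n] [DecidableEq m]
  [DecidableEq n]

theorem fromBlocks_pow (A : Matrix m m k) (D : Matrix n n k) (i : ℕ) :
    Matrix.fromBlocks A 0 0 D ^ i = Matrix.fromBlocks (A ^ i) 0 0 (D ^ i) := by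
  induction i with
  | zero => rw [pow_zero, pow_zero, pow_zero, Matrix.fromBlocks_one]
  | succ i ih =>
    rw [pow_succ, ih, Matrix.fromBlocks_multiply, pow_succ, pow_succ]
    simp

theorem trace_blocks (A : Matrix m m k) (D : Matrix n n k) :
    (Matrix.fromBlocks A 0 0 D).trace = A.trace + D.trace := by
  simp [Matrix.trace, Fintype.sum_sum_type]

theorem det_smul_sub (A : Matrix m m k) (D : Matrix n n k) :
    ((-1 : k) • (1 : Matrix (m ⊕ n) (m ⊕ n) k) - Matrix.fromBlocks A 0 0 D).det =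
      ((-1 : k) • (1 : Matrix m m k) - A).det * ((-1 : k) • (1 : Matrix n n k) - D).det := by
  have h : (-1 : k) • (1 : Matrix (m ⊕ n) (m ⊕ n) k) - Matrix.fromBlocks A 0 0 D =
      Matrix.fromBlocks ((-1 : k) • (1 : Matrix m m k) - A) 0 0
        ((-1 : k) • (1 : Matrix n n k) - D) := by
    rw [sub_eq_add_neg, ← Matrix.fromBlocks_one, Matrix.fromBlocks_smul, Matrix.fromBlocks_neg,
      Matrix.fromBlocks_add]
    simp [sub_eq_add_neg]
  rw [h, Matrix.det_fromBlocks_zero₂₁]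

theorem det_neg_one_sub (A : Matrix m m k) :
    ((-1 : k) • (1 : Matrix m m k) - A).det = (-1) ^ Fintype.card m * (1 + A).det := by
  have h : (-1 : k) • (1 : Matrix m m k) - A = -(1 + A) := by
    rw [neg_one_smul]
    abel
  rw [h, Matrix.det_neg]

end block

/-- (C2) the sum modulo `r` -/
theorem sum_mod {r Q : ℕ} (hQ : (Q : ZMod r) = 1) {d : ℕ} (h : Matrix (Fin d) (Fin d) ℤ)
    (g₀ g₁ : Matrix (Fin 2) (Fin 2) ℤ) (cnt : ℕ → ℕ) (hc : ∀ N : ℕ, 0 < N → (cnt N : ℤ) =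
      ((Q : ℤ) ^ N) ^ 2 + (Q : ℤ) ^ N * ((h ^ N).trace - 1) + (g₀ ^ N).trace + (g₁ ^ N).trace) :
    ∃ M : Matrix ((Fin d ⊕ Fin 2) ⊕ Fin 2) ((Fin d ⊕ Fin 2) ⊕ Fin 2) (ZMod r),
      (∀ N : ℕ, 0 < N → (cnt N : ZMod r) = (M ^ N).trace) ∧
      ((-1 : ZMod r) • (1 : Matrix ((Fin d ⊕ Fin 2) ⊕ Fin 2) ((Fin d ⊕ Fin 2) ⊕ Fin 2) (ZMod r)) -
        M).det =
        (-1) ^ (d + 4) * (((1 + h).det * (1 + g₀).det * (1 + g₁).det : ℤ) : ZMod r) := by
  let φ : ℤ →+* ZMod r := Int.castRingHom (ZMod r)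
  have hmap : ∀ {n : ℕ} (M : Matrix (Fin n) (Fin n) ℤ) (i : ℕ),
      ((φ.mapMatrix M) ^ i).trace = φ ((M ^ i).trace) := by
    intro n M i
    rw [← map_pow]
    simp [Matrix.trace, RingHom.mapMatrix_apply]
  have hdet : ∀ {n : ℕ} (M : Matrix (Fin n) (Fin n) ℤ),
      (1 + φ.mapMatrix M).det = φ ((1 + M).det) := by
    intro n M
    rw [RingHom.map_det, map_add, map_one]
  refine ⟨Matrix.fromBlocks (Matrix.fromBlocks (φ.mapMatrix h) 0 0
    (φ.mapMatrix g₀)) 0 0 (φ.mapMatrix g₁), fun i hi => ?_, ?_⟩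
  · rw [fromBlocks_pow, fromBlocks_pow, trace_blocks, trace_blocks, hmap, hmap, hmap]
    have e4 := congrArg φ (hc i hi)
    simp only [map_add, map_sub, map_mul, map_pow, map_natCast, map_one] at e4
    rw [hQ, one_pow, one_pow, one_mul] at e4
    rw [e4]
    ring
  · rw [det_smul_sub, det_smul_sub, det_neg_one_sub, det_neg_one_sub, det_neg_one_sub, hdet,
      hdet, hdet, Fintype.card_fin, Fintype.card_fin]
    show _ = _ * φ _
    rw [map_mul, map_mul]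
    ring

end Pool.Agent.Helper48.BC
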